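import Pool.Agent.Helper32.NP.ZW
import Pool.Agent.Helper51.NP.F0

/-!
# GP-F2: the sum over the vertices off the tube
-/

set_option autoImplicit false

namespace Pool.Agent.Helper32.NP

open MeasureTheory ProbabilityTheory Filter Pool.Agent.Helper79.GR Pool.Agent.Helper79.GQ
open Pool.Agent.Helper51.NP

theorem far_sum {d : ℕ} (f : V d → ℝ) (A : Set (V d)) {A1 A2 θ N : ℝ} (hA1 : 0 ≤ A1)
    (hA2 : 0 ≤ A2) (hθ : 0 < θ) (hθ1 : θ ≤ 1) (hN : 1 ≤ N)
    (hf : ∀ z ∈ A, f z ≤ A1 * Real.exp (-(θ * n1 z)) ∨ (n1 z ≤ N ∧ f z ≤ A2)) :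
    ∑' z : A, ENNReal.ofReal (f z) ≤ ENNReal.ofReal (A1 * (8 / θ) ^ d + 3 * A2 * (8 * N) ^ d) := by
  have hN0 : 0 < N := by linarith
  have h1 := sum_exp_nr d θ hθ hθ1 0
  have h2 := sum_exp_nr d (1 / N) (by positivity) ((div_le_one hN0).2 hN) 0
  have hpt : ∀ z : A, ENNReal.ofReal (f z) ≤
      ENNReal.ofReal A1 * ENNReal.ofReal (Real.exp (-(θ * nr (rv z.1 - 0)))) +
      ENNReal.ofReal (3 * A2) * ENNReal.ofReal (Real.exp (-(1 / N * nr (rv z.1 - 0)))) := by
    intro z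
    rw [sub_zero, nr_rv, ← ENNReal.ofReal_mul hA1, ← ENNReal.ofReal_mul (by positivity),
      ← ENNReal.ofReal_add (by positivity) (by positivity)]
    refine ENNReal.ofReal_le_ofReal ?_
    rcases hf z z.2 with h | ⟨h, h'⟩
    · have : 0 ≤ 3 * A2 * Real.exp (-(1 / N * n1 z.1)) := by positivity
      linarith
    · have h3 : 1 ≤ 3 * Real.exp (-(1 / N * n1 z.1)) := by
        have h4 : 1 / N * n1 z.1 ≤ 1 := by
          rw [one_div, inv_mul_le_iff₀ hN0]
          linarith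
        have h5 : Real.exp (-1) ≤ Real.exp (-(1 / N * n1 z.1)) :=
          Real.exp_le_exp.2 (by linarith)
        have h6 : 1 ≤ 3 * Real.exp (-1) := by
          rw [Real.exp_neg, ← div_eq_mul_inv, le_div_iff₀ (Real.exp_pos 1)]
          have := Real.exp_one_lt_d9
          linarith
        linarith
      have h4 : A2 ≤ 3 * A2 * Real.exp (-(1 / N * n1 z.1)) := by nlinarith
      have h5 : 0 ≤ A1 * Real.exp (-(θ * n1 z.1)) := by positivity
      linarith
  calc ∑' z : A, ENNReal.ofReal (f z) ≤ ∑' z : A,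
        (ENNReal.ofReal A1 * ENNReal.ofReal (Real.exp (-(θ * nr (rv z.1 - 0)))) +
        ENNReal.ofReal (3 * A2) * ENNReal.ofReal (Real.exp (-(1 / N * nr (rv z.1 - 0))))) :=
        ENNReal.tsum_le_tsum hpt
    _ ≤ ∑' z : V d,
        (ENNReal.ofReal A1 * ENNReal.ofReal (Real.exp (-(θ * nr (rv z - 0)))) +
        ENNReal.ofReal (3 * A2) * ENNReal.ofReal (Real.exp (-(1 / N * nr (rv z - 0))))) :=
        ENNReal.tsum_comp_le_tsum_of_injective Subtype.val_injective _
    _ = ENNReal.ofReal A1 * ∑' z : V d, ENNReal.ofReal (Real.exp (-(θ * nr (rv z - 0)))) +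
        ENNReal.ofReal (3 * A2) *
          ∑' z : V d, ENNReal.ofReal (Real.exp (-(1 / N * nr (rv z - 0)))) := by
        rw [ENNReal.tsum_add, ENNReal.tsum_mul_left, ENNReal.tsum_mul_left]
    _ ≤ ENNReal.ofReal A1 * ENNReal.ofReal ((8 / θ) ^ d) +
        ENNReal.ofReal (3 * A2) * ENNReal.ofReal ((8 / (1 / N)) ^ d) := by gcongr
    _ = ENNReal.ofReal (A1 * (8 / θ) ^ d + 3 * A2 * (8 * N) ^ d) := by
        rw [← ENNReal.ofReal_mul hA1, ← ENNReal.ofReal_mul (by positivity),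
          ← ENNReal.ofReal_add (by positivity) (by positivity)]
        congr 3
        rw [div_div_eq_mul_div, div_one]

end Pool.Agent.Helper32.NP
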