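import Pool.Agent.Helper32.NP.TM
import Pool.Agent.Helper51.GP.F1

/-!
# GP-F2: the geodesic stays in a tube
-/

set_option autoImplicit false

namespace Pool.Agent.Helper32.NP

open MeasureTheory ProbabilityTheory Filter Pool.Agent.Helper79.GR Pool.Agent.Helper79.GQ
open Pool.Agent.Helper51.NP Pool.Agent.Helper51.GP

theorem norm_le_nr {d : ℕ} (x : F d) : ‖x‖ ≤ nr x := by
  rw [pi_norm_le_iff_of_nonneg (nr_nonneg x)]
  intro i
  rw [Real.norm_eq_abs]
  exact Finset.single_le_sum (f := fun j => |x j|) (fun j _ => abs_nonneg _) (Finset.mem_univ i)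

theorem abs_lin_le {d : ℕ} (h : F d →L[ℝ] ℝ) (x : F d) : |h x| ≤ ‖h‖ * nr x := by
  rw [← Real.norm_eq_abs]
  exact (h.le_opNorm x).trans (mul_le_mul_of_nonneg_left (norm_le_nr x) (norm_nonneg h))

private theorem pow_le_exp {β : ℝ} (hβ : 0 ≤ β) (k : ℕ) : β ^ k ≤ Real.exp (k * β) := by
  rw [Real.exp_nat_mul]
  refine pow_le_pow_left₀ hβ ?_ k
  have := Real.add_one_le_exp β
  linarith

private theorem four_pow_le {β : ℝ} (L : ℕ) (hL : (L : ℝ) ≤ β) : (4 : ℝ) ^ L ≤ Real.exp (2 * β) := by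
  have h1 : (4 : ℝ) ≤ Real.exp 2 := by
    have h2 : Real.exp 2 = Real.exp 1 * Real.exp 1 := by
      rw [← Real.exp_add]
      norm_num
    have h3 := Real.add_one_le_exp (1 : ℝ)
    rw [h2]
    nlinarith
  calc (4 : ℝ) ^ L ≤ Real.exp 2 ^ L := pow_le_pow_left₀ (by norm_num) h1 L
    _ = Real.exp (L * 2) := by rw [Real.exp_nat_mul]
    _ ≤ Real.exp (2 * β) := Real.exp_le_exp.2 (by linarith)

private theorem exp_neg_three : Real.exp (-3) ≤ 1 / 8 := by
  have h1 : (8 : ℝ) ≤ Real.exp 3 := by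
    have h2 : Real.exp 3 = Real.exp 1 * Real.exp 1 * Real.exp 1 := by
      rw [← Real.exp_add, ← Real.exp_add]
      norm_num
    have h3 := Real.add_one_le_exp (1 : ℝ)
    have h4 : (2 : ℝ) ≤ Real.exp 1 := by linarith
    rw [h2]
    have h5 : (4 : ℝ) ≤ Real.exp 1 * Real.exp 1 := by nlinarith
    nlinarith
  rw [Real.exp_neg, inv_eq_one_div]
  exact one_div_le_one_div_of_le (by norm_num) h1

theorem near_small (k1 d C K1 L : ℕ) {β k3 k4 N : ℝ} (hk3 : 1 ≤ k3) (hk4 : 0 ≤ k4)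
    (hC : 1 ≤ C) (hK1 : 3 ≤ K1) (hL : 1 ≤ L) (hLβ : (L : ℝ) ≤ β)
    (hβ : C * ((k1 + 2 + k4 + d * (3 + k3 + 4 * d + 7)) + 3) ≤ β) (hN0 : 0 ≤ N)
    (hN : N ≤ k3 * L * 4 ^ (L * (2 * d + 3))) :
    β ^ k1 * (3 * Real.exp (k4 * L - β ^ K1 / (C * L)) * (8 * N) ^ d) ≤ 1 / 8 := by
  have hL1 : (1 : ℝ) ≤ L := by exact_mod_cast hL
  have hL0 : (0 : ℝ) < L := by linarith
  have hC1 : (1 : ℝ) ≤ C := by exact_mod_cast hC
  have hC0 : (0 : ℝ) < C := by linarith
  have hβ1 : 1 ≤ β := hL1.trans hLβ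
  have hβ0 : 0 ≤ β := by linarith
  have hd0 : (0 : ℝ) ≤ d := Nat.cast_nonneg d
  have e1 := pow_le_exp hβ0 k1
  have e2 : (3 : ℝ) ≤ Real.exp 2 := by
    have := Real.add_one_le_exp (2 : ℝ)
    linarith
  have e3 : Real.exp (k4 * L - β ^ K1 / (C * L)) ≤ Real.exp (k4 * β - β ^ 2 / C) := by
    refine Real.exp_le_exp.2 ?_
    have h1 : k4 * L ≤ k4 * β := mul_le_mul_of_nonneg_left hLβ hk4
    have h2 : β ^ 2 / C ≤ β ^ K1 / (C * L) := by
      rw [div_le_div_iff₀ hC0 (by positivity)]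
      have h3 : β ^ 3 ≤ β ^ K1 := pow_le_pow_right₀ hβ1 hK1
      have h4 : β ^ 2 * L ≤ β ^ 3 := by
        rw [pow_succ β 2]
        exact mul_le_mul_of_nonneg_left hLβ (by positivity)
      calc β ^ 2 * (C * L) = (β ^ 2 * L) * C := by ring
        _ ≤ β ^ K1 * C := mul_le_mul_of_nonneg_right (h4.trans h3) hC0.le
    linarith
  have e4 : 8 * N ≤ Real.exp (3 + k3 + (4 * d + 7) * β) := by
    have h1 : (8 : ℝ) ≤ Real.exp 3 := by
      have h2 : Real.exp 3 = Real.exp 1 * Real.exp 1 * Real.exp 1 := by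
        rw [← Real.exp_add, ← Real.exp_add]
        norm_num
      have h3 := Real.add_one_le_exp (1 : ℝ)
      have h4 : (2 : ℝ) ≤ Real.exp 1 := by linarith
      rw [h2]
      have h5 : (4 : ℝ) ≤ Real.exp 1 * Real.exp 1 := by nlinarith
      nlinarith
    have h2 : k3 ≤ Real.exp k3 := by
      have := Real.add_one_le_exp k3
      linarith
    have h3 : (L : ℝ) ≤ Real.exp β := by
      have := Real.add_one_le_exp β
      linarith
    have h4 : (4 : ℝ) ^ (L * (2 * d + 3)) ≤ Real.exp ((2 * d + 3) * (2 * β)) := by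
      have h5 := four_pow_le L hLβ
      calc (4 : ℝ) ^ (L * (2 * d + 3)) = ((4 : ℝ) ^ L) ^ (2 * d + 3) := by rw [pow_mul]
        _ ≤ Real.exp (2 * β) ^ (2 * d + 3) := pow_le_pow_left₀ (by positivity) h5 _
        _ = Real.exp ((2 * d + 3) * (2 * β)) := by
            rw [← Real.exp_nat_mul]
            push_cast
            ring_nf
    calc 8 * N ≤ 8 * (k3 * L * 4 ^ (L * (2 * d + 3))) := by linarith
      _ ≤ Real.exp 3 * (Real.exp k3 * Real.exp β * Real.exp ((2 * d + 3) * (2 * β))) := by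
          gcongr
      _ = Real.exp (3 + k3 + (4 * d + 7) * β) := by
          rw [← Real.exp_add, ← Real.exp_add, ← Real.exp_add]
          congr 1
          ring
  have e5 : (8 * N) ^ d ≤ Real.exp (d * (3 + k3 + (4 * d + 7) * β)) := by
    rw [Real.exp_nat_mul]
    exact pow_le_pow_left₀ (by positivity) e4 d
  calc β ^ k1 * (3 * Real.exp (k4 * L - β ^ K1 / (C * L)) * (8 * N) ^ d)
      ≤ Real.exp (k1 * β) * (Real.exp 2 * Real.exp (k4 * β - β ^ 2 / C) *
        Real.exp (d * (3 + k3 + (4 * d + 7) * β))) := by gcongr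
    _ = Real.exp (k1 * β + 2 + (k4 * β - β ^ 2 / C) + d * (3 + k3 + (4 * d + 7) * β)) := by
        rw [← Real.exp_add, ← Real.exp_add, ← Real.exp_add]
        congr 1
        ring
    _ ≤ Real.exp (-3) := by
        refine Real.exp_le_exp.2 ?_
        have h1 : (k1 + 2 + k4 + d * (3 + k3 + 4 * d + 7) + 3) * β ≤ β ^ 2 / C := by
          rw [le_div_iff₀ hC0]
          nlinarith
        have h2 : 3 + k3 + (4 * d + 7) * β ≤ (3 + k3 + 4 * d + 7) * β := by nlinarith
        have h3 : d * (3 + k3 + (4 * d + 7) * β) ≤ d * ((3 + k3 + 4 * d + 7) * β) :=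
          mul_le_mul_of_nonneg_left h2 hd0
        nlinarith
    _ ≤ 1 / 8 := exp_neg_three

theorem far_small (k1 d L : ℕ) {β a l t : ℝ} (ha : 0 < a) (hl : 0 < l)
    (hlo : (1 / 4) ^ L ≤ l) (hβ1 : 1 ≤ β) (hLβ : (L : ℝ) ≤ β)
    (ht : ((k1 + 1 + d * (16 / a + 2)) + 3) * β ≤ t) :
    β ^ k1 * (2 * Real.exp (-t) * (8 / (l * a / 2)) ^ d) ≤ 1 / 8 := by
  have hβ0 : 0 ≤ β := by linarith
  have hd0 : (0 : ℝ) ≤ d := Nat.cast_nonneg d
  have e1 := pow_le_exp hβ0 k1
  have e2 : (2 : ℝ) ≤ Real.exp 1 := by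
    have := Real.add_one_le_exp (1 : ℝ)
    linarith
  have e4 : 8 / (l * a / 2) ≤ Real.exp (16 / a + 2 * β) := by
    have h1 : 16 / a ≤ Real.exp (16 / a) := by
      have := Real.add_one_le_exp (16 / a)
      linarith
    have h2 : 1 / l ≤ 4 ^ L := by
      rw [div_le_iff₀ hl]
      calc (1 : ℝ) = 4 ^ L * (1 / 4) ^ L := by rw [← mul_pow]; norm_num
        _ ≤ 4 ^ L * l := mul_le_mul_of_nonneg_left hlo (by positivity)
    have h3 := four_pow_le L hLβ
    calc 8 / (l * a / 2) = 16 / a * (1 / l) := by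
          field_simp
          norm_num
      _ ≤ Real.exp (16 / a) * Real.exp (2 * β) := by
          have : 0 ≤ 1 / l := by positivity
          have h5 : 0 ≤ 16 / a := by positivity
          exact mul_le_mul h1 (h2.trans h3) this (Real.exp_pos _).le
      _ = Real.exp (16 / a + 2 * β) := by rw [← Real.exp_add]
  have e5 : (8 / (l * a / 2)) ^ d ≤ Real.exp (d * (16 / a + 2 * β)) := by
    rw [Real.exp_nat_mul]
    exact pow_le_pow_left₀ (by positivity) e4 d
  calc β ^ k1 * (2 * Real.exp (-t) * (8 / (l * a / 2)) ^ d)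
      ≤ Real.exp (k1 * β) * (Real.exp 1 * Real.exp (-t) *
        Real.exp (d * (16 / a + 2 * β))) := by gcongr
    _ = Real.exp (k1 * β + 1 + (-t) + d * (16 / a + 2 * β)) := by
        rw [← Real.exp_add, ← Real.exp_add, ← Real.exp_add]
        congr 1
        ring
    _ ≤ Real.exp (-3) := by
        refine Real.exp_le_exp.2 ?_
        have h5 : 0 ≤ 16 / a := by positivity
        have h2 : 16 / a + 2 * β ≤ (16 / a + 2) * β := by nlinarith
        have h3 : d * (16 / a + 2 * β) ≤ d * ((16 / a + 2) * β) :=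
          mul_le_mul_of_nonneg_left h2 hd0
        nlinarith
    _ ≤ 1 / 8 := exp_neg_three

end Pool.Agent.Helper32.NP
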