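import Pool.Agent.Helper32.NP.TN

/-!
# GP-F2: the geodesic stays in a tube, main part
-/

set_option autoImplicit false

namespace Pool.Agent.Helper32.NP

open MeasureTheory ProbabilityTheory Filter Pool.Agent.Helper79.GR Pool.Agent.Helper79.GQ
open Pool.Agent.Helper51.NP Pool.Agent.Helper51.GP

variable {Ω : Type*} [MeasurableSpace Ω] {P : Measure Ω} {d : ℕ} {X : ℕ → Edge d → Ω → ℝ}
  {ν : ℕ → Measure ℝ} {δ : ℕ → ℝ} {a K s : ℝ} {m C : ℕ} {u : F d → ℝ} {v : F d}
  {h : F d →L[ℝ] ℝ}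

private theorem sqrt_mul_exp {Z A G : ℝ} (hZ : Z * Real.exp (2 * G) ≤ Real.exp (2 * A)) :
    √Z * Real.exp G ≤ Real.exp A := by
  have h1 : √Z * Real.exp G = √(Z * Real.exp (2 * G)) := by
    have h2 : Real.exp (2 * G) = Real.exp G ^ 2 := by
      rw [← Real.exp_nat_mul]
      push_cast
      ring_nf
    rw [h2, Real.sqrt_mul' _ (by positivity), Real.sqrt_sq (Real.exp_pos _).le]
  have h3 : Real.exp A = √(Real.exp (2 * A)) := by
    have h2 : Real.exp (2 * A) = Real.exp A ^ 2 := by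
      rw [← Real.exp_nat_mul]
      push_cast
      ring_nf
    rw [h2, Real.sqrt_sq (Real.exp_pos _).le]
  rw [h1, h3]
  exact Real.sqrt_le_sqrt hZ

/-- the term of a vertex `z` at a bounded distance -/
theorem f_near {L b : ℕ} {l D E : ℝ} {g : F d →L[ℝ] ℝ} {H k2 k3 n W : ℝ}
    (hPk : Pack P X u v h C L b l D E g) (hE : Env P (X b) (ν b) (δ b) b)
    (hH0 : 0 ≤ H) (hH : ∀ x, |h x| ≤ H * nr x) (hE0 : 0 ≤ E) (hn0 : 0 ≤ n) (hk2 : 0 ≤ k2)
    (hk3 : 0 ≤ k3)
    (q z : V d) (hq : n1 q ≤ k2 * n) (hz : n1 z ≤ k3 * n) (hW : W < tr v h (rv z)) :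
    Real.exp (l * g (rv q)) * (√(Z P (X b) (2 * l) 0 z) * √(Z P (X b) (2 * l) z q)) ≤
      Real.exp (C * H * (k2 + 2 * k3) * (l * E * n) - l * W / (C * L)) := by
  have hl0 := hPk.lpos.le
  have e1 : √(Z P (X b) (2 * l) 0 z) * Real.exp (l * g (rv z)) ≤
      Real.exp (l * (C * E * max (h (rv z)) 0 - tr v h (rv z) / (C * L))) := by
    refine sqrt_mul_exp ?_
    have h1 := hPk.z2 z
    rw [← mul_assoc, ← mul_assoc]
    exact h1
  have e2 : √(Z P (X b) (2 * l) z q) * Real.exp (l * g (rv (q - z))) ≤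
      Real.exp (l * (C * E * max (h (rv (q - z))) 0 - tr v h (rv (q - z)) / (C * L))) := by
    refine sqrt_mul_exp ?_
    have h1 := hPk.z2 (q - z)
    rw [Z_eq_zero_sub hE, ← mul_assoc, ← mul_assoc]
    exact h1
  have e3 : Real.exp (l * g (rv q)) =
      Real.exp (l * g (rv z)) * Real.exp (l * g (rv (q - z))) := by
    rw [← Real.exp_add, rv_sub, map_sub]
    congr 1
    ring
  have hCE : 0 ≤ (C : ℝ) * E := mul_nonneg (Nat.cast_nonneg C) hE0
  have m1 : max (h (rv z)) 0 ≤ H * (k3 * n) := by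
    refine max_le ((le_abs_self _).trans ((hH _).trans ?_)) (by positivity)
    rw [nr_rv]
    exact mul_le_mul_of_nonneg_left hz hH0
  have m2 : max (h (rv (q - z))) 0 ≤ H * ((k2 + k3) * n) := by
    refine max_le ((le_abs_self _).trans ((hH _).trans ?_)) (by positivity)
    rw [nr_rv]
    refine mul_le_mul_of_nonneg_left ?_ hH0
    have h1 := n1_add_le q (-z)
    rw [n1_neg, ← sub_eq_add_neg] at h1
    linarith
  have t1 : W / (C * L) ≤ tr v h (rv z) / (C * L) :=
    div_le_div_of_nonneg_right hW.le (by positivity)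
  have t2 : 0 ≤ tr v h (rv (q - z)) / (C * L) := by
    have := Pool.Agent.Helper79.GQ.nr_nonneg (rv (q - z) - h (rv (q - z)) • v)
    exact div_nonneg this (by positivity)
  calc Real.exp (l * g (rv q)) * (√(Z P (X b) (2 * l) 0 z) * √(Z P (X b) (2 * l) z q))
      = (√(Z P (X b) (2 * l) 0 z) * Real.exp (l * g (rv z))) *
        (√(Z P (X b) (2 * l) z q) * Real.exp (l * g (rv (q - z)))) := by
        rw [e3]
        ring
    _ ≤ Real.exp (l * (C * E * max (h (rv z)) 0 - tr v h (rv z) / (C * L))) *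
        Real.exp (l * (C * E * max (h (rv (q - z))) 0 - tr v h (rv (q - z)) / (C * L))) :=
        mul_le_mul e1 e2 (by positivity) (Real.exp_pos _).le
    _ ≤ Real.exp (C * H * (k2 + 2 * k3) * (l * E * n) - l * W / (C * L)) := by
        rw [← Real.exp_add]
        refine Real.exp_le_exp.2 ?_
        have n1' := mul_le_mul_of_nonneg_left m1 hCE
        have n2' := mul_le_mul_of_nonneg_left m2 hCE
        have h3 : C * E * max (h (rv z)) 0 - tr v h (rv z) / (C * L) +
            (C * E * max (h (rv (q - z))) 0 - tr v h (rv (q - z)) / (C * L)) ≤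
            C * E * (H * (k3 * n)) + C * E * (H * ((k2 + k3) * n)) - W / (C * L) := by linarith
        have h4 := mul_le_mul_of_nonneg_left h3 hl0
        calc _ = l * (C * E * max (h (rv z)) 0 - tr v h (rv z) / (C * L) +
            (C * E * max (h (rv (q - z))) 0 - tr v h (rv (q - z)) / (C * L))) := by ring
          _ ≤ _ := h4
          _ = _ := by ring

/-- the term of a vertex `z` far away -/
theorem f_far {b : ℕ} {l : ℝ} {g : F d →L[ℝ] ℝ} {k2 k3 n : ℝ}
    (hE : Env P (X b) (ν b) (δ b) b) (hR : Reg P (X b) a) (hl : 0 < l) (hl2 : 2 * l ≤ 1)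
    (hK : 0 ≤ K) (hg : ∀ x, g x ≤ K * nr x) (hk3 : 2 * (K * k2 + 1) ≤ a * k3)
    (q z : V d) (hq : n1 q ≤ k2 * n) (hz : k3 * n < n1 z) (hn0 : 0 ≤ n) :
    Real.exp (l * g (rv q)) * (√(Z P (X b) (2 * l) 0 z) * √(Z P (X b) (2 * l) z q)) ≤
      2 * Real.exp (-(l * n)) * Real.exp (-(l * a / 2 * n1 z)) := by
  have ha := hR.apos
  have z1 := Z_le hE hR (by positivity : 0 ≤ 2 * l) hl2 z
  have z2 := Z_le hE hR (by positivity : 0 ≤ 2 * l) hl2 (q - z)
  have z2' : Z P (X b) (2 * l) z q ≤ 2 := by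
    rw [Z_eq_zero_sub hE]
    refine z2.trans ?_
    have h1 : Real.exp (-(2 * l * (a * n1 (q - z)))) ≤ 1 := by
      rw [Real.exp_le_one_iff]
      have := n1_nonneg (q - z)
      have h2 : 0 ≤ 2 * l * (a * n1 (q - z)) := by positivity
      linarith
    linarith
  have e1 : √(Z P (X b) (2 * l) 0 z) ≤ √2 * Real.exp (-(l * (a * n1 z))) := by
    refine (Real.sqrt_le_sqrt z1).trans (le_of_eq ?_)
    have h2 : Real.exp (-(2 * l * (a * n1 z))) = Real.exp (-(l * (a * n1 z))) ^ 2 := by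
      rw [← Real.exp_nat_mul]
      push_cast
      ring_nf
    rw [h2, Real.sqrt_mul' _ (by positivity), Real.sqrt_sq (Real.exp_pos _).le]
  have e2 : √(Z P (X b) (2 * l) z q) ≤ √2 := Real.sqrt_le_sqrt z2'
  have e3 : g (rv q) ≤ K * (k2 * n) := by
    refine (hg _).trans ?_
    rw [nr_rv]
    exact mul_le_mul_of_nonneg_left hq hK
  have h22 : √2 * √2 = (2 : ℝ) := Real.mul_self_sqrt (by norm_num)
  calc Real.exp (l * g (rv q)) * (√(Z P (X b) (2 * l) 0 z) * √(Z P (X b) (2 * l) z q))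
      ≤ Real.exp (l * (K * (k2 * n))) * (√2 * Real.exp (-(l * (a * n1 z))) * √2) := by
        gcongr
    _ = 2 * Real.exp (l * (K * (k2 * n)) - l * (a * n1 z)) := by
        rw [sub_eq_add_neg, Real.exp_add]
        linear_combination (Real.exp (l * (K * (k2 * n))) * Real.exp (-(l * (a * n1 z)))) * h22
    _ ≤ 2 * Real.exp (-(l * n) + -(l * a / 2 * n1 z)) := by
        refine mul_le_mul_of_nonneg_left (Real.exp_le_exp.2 ?_) (by norm_num)
        have h1 : a * (k3 * n) ≤ a * n1 z := mul_le_mul_of_nonneg_left hz.le ha.le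
        have h2 : 2 * (K * k2 + 1) * n ≤ a * k3 * n := mul_le_mul_of_nonneg_right hk3 hn0
        have h3 : K * (k2 * n) + n ≤ a * n1 z / 2 := by linarith
        have h4 := mul_le_mul_of_nonneg_left h3 hl.le
        linarith
    _ = 2 * Real.exp (-(l * n)) * Real.exp (-(l * a / 2 * n1 z)) := by
        rw [Real.exp_add, mul_assoc]

theorem tube_moments (hF : Fam P X ν δ a m K u) (hv : h v = 1) (hC : 1 ≤ C) :
    ∃ K₁ : ℕ, 1 ≤ K₁ ∧ ∃ L₀ : ℕ, ∀ L : ℕ, L₀ ≤ L → ∀ (l D E : ℝ) (g : F d →L[ℝ] ℝ),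
      Pack P X u v h C L (bb m L) l D E g → ∀ κ : ℝ, 1 ≤ κ → κ ≤ L → ∃ q : V d,
        κ / (2 * (l * E)) ≤ h (rv q) ∧ h (rv q) ≤ 2 * κ / (l * E) ∧
        tr v h (rv q) ≤ (bb m L : ℕ) ^ K₁ / l ∧
        Real.exp (κ * D / E) - 1 / 2 ≤ (bb m L : ℕ) ^ K₁ *
          (Zc P (X (bb m L)) (tub v h ((bb m L : ℕ) ^ K₁ / l) (K₁ * κ / (l * E))) (bb m L) l 0 q *
            Real.exp (l * g (rv q))) ∧
        Z P (X (bb m L)) l 0 q * Real.exp (l * g (rv q)) ≤ Real.exp (K₁ * κ) ∧
        Z P (X (bb m L)) (2 * l) 0 q * Real.exp (2 * l * g (rv q)) ≤ Real.exp (K₁ * κ) := by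
  obtain ⟨k1, hk1, L1, hgp⟩ := good_point (h := h) hF hv hC
  have ha : 0 < a := (hF.reg 1 le_rfl).apos
  have ha1 : a ≤ 1 := (hF.reg 1 le_rfl).ale
  have hC1 : (1 : ℝ) ≤ C := by exact_mod_cast hC
  -- `v ≠ 0`, `K > 0`
  have hnv : 0 < nr v := by
    rcases (Pool.Agent.Helper79.GQ.nr_nonneg v).lt_or_eq with h1 | h1
    · exact h1
    · have h2 := abs_lin_le h v
      rw [hv, ← h1, mul_zero, abs_one] at h2
      linarith
  have hK : 0 ≤ K := by
    have h1 := (hF.nrm.lo v).trans (hF.nrm.hi v)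
    exact ha.le.trans (le_of_mul_le_mul_right h1 hnv)
  set H : ℝ := ‖h‖ with hH
  have hH0 : 0 ≤ H := norm_nonneg h
  set k2 : ℝ := 2 * nr v + 1 with hk2
  have hk20 : 0 ≤ k2 := by positivity
  set k3 : ℝ := 2 * (K * k2 + 1) / a with hk3
  have hk31 : 1 ≤ k3 := by
    rw [hk3, le_div_iff₀ ha]
    have : 0 ≤ K * k2 := mul_nonneg hK hk20
    linarith
  have hk3a : 2 * (K * k2 + 1) ≤ a * k3 := by
    rw [hk3, mul_div_cancel₀ _ ha.ne']
  set k4 : ℝ := C * H * (k2 + 2 * k3) with hk4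
  have hk40 : 0 ≤ k4 := by positivity
  set K1 : ℕ := k1 + 4 * C + ⌈k3⌉₊ + 3 with hK1
  obtain ⟨L2, hL2⟩ := le_bb m (C * ((k1 + 2 + k4 + d * (3 + k3 + 4 * d + 7)) + 3))
  obtain ⟨L3, hL3⟩ := bb_small m (C + 1) (1 / ((k1 + 1 + d * (16 / a + 2)) + 3)) (by positivity)
  obtain ⟨L4, hL4⟩ := bb_small m (k1 + C) 1 one_pos
  obtain ⟨L5, hL5⟩ := le_bb m 1
  refine ⟨K1, by omega, max (max L1 (max L2 L3)) (max L4 (max L5 1)), ?_⟩
  intro L hL l D E g hPk κ hκ1 hκL
  simp only [max_le_iff] at hL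
  obtain ⟨⟨hLa, hLb, hLc⟩, hLd, hLe, hLf⟩ := hL
  obtain ⟨q, hq1, hq2, hq3, hq4⟩ := hgp L hLa l D E g hPk κ hκ1 hκL
  -- the numbers
  set β : ℝ := ((bb m L : ℕ) : ℝ) with hβdef
  have hβL : (L : ℝ) ≤ β := (hL5 L hLe).2.2
  have hβc := (hL2 L hLb).1
  have hs1 := hL3 L hLc
  have hs2 := hL4 L hLd
  have hL1' : (1 : ℝ) ≤ L := by exact_mod_cast hLf
  have hβ1 : 1 ≤ β := hL1'.trans hβL
  have hβ0 : 0 < β := by linarith
  have hl := hPk.lpos
  have hlup := hPk.lup
  have hhalf : ((1 : ℝ) / 2) ^ L ≤ 1 / 2 := by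
    calc ((1 : ℝ) / 2) ^ L ≤ (1 / 2) ^ 1 :=
          pow_le_pow_of_le_one (by norm_num) (by norm_num) hLf
      _ = 1 / 2 := pow_one _
  have hl2 : 2 * l ≤ 1 := by linarith
  have hl1 : l ≤ 1 := by linarith
  have hE0 : 0 < E := by
    rw [hPk.DE]
    have := hPk.D0
    positivity
  have hElo : l ^ (2 * d + 2) ≤ E := by
    rw [hPk.DE]
    have := hPk.D0
    linarith
  have hEup : E ≤ β ^ C * (1 / 2) ^ L :=
    hPk.EC.trans (mul_le_mul_of_nonneg_left hlup (by positivity))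
  have hEb : β ^ k1 * E ≤ 1 := by
    calc β ^ k1 * E ≤ β ^ k1 * (β ^ C * (1 / 2) ^ L) :=
          mul_le_mul_of_nonneg_left hEup (by positivity)
      _ = β ^ (k1 + C) * (1 / 2) ^ L := by rw [pow_add]; ring
      _ ≤ 1 := hs2
  have hE1 : E ≤ 1 := by
    have h1 : 1 * E ≤ β ^ k1 * E := mul_le_mul_of_nonneg_right (one_le_pow₀ hβ1) hE0.le
    linarith
  set n : ℝ := κ / (l * E) with hn
  have hlE : 0 < l * E := mul_pos hl hE0
  have hlEn : l * E * n = κ := by
    rw [hn, mul_div_cancel₀ _ hlE.ne']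
  have hn1 : 1 ≤ n := by
    rw [hn, le_div_iff₀ hlE]
    have : l * E ≤ 1 := mul_le_one₀ hl1 hE0.le hE1
    linarith
  have hn0 : 0 ≤ n := by linarith
  have hq2' : h (rv q) ≤ 2 * n := by
    rw [hn, ← mul_div_assoc]
    exact hq2
  have hq0 : 0 ≤ h (rv q) := le_trans (by positivity) hq1
  have hb1 : 1 ≤ bb m L := by
    rw [hβdef] at hβ1
    exact_mod_cast hβ1
  have hEnv := hF.env (bb m L) hb1
  have hReg := hF.reg (bb m L) hb1
  -- the size of `q`
  have hqn : n1 q ≤ k2 * n := by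
    rw [← nr_rv]
    have h1 := Pool.Agent.Helper19.PG.nr_le_tr v h (rv q)
    have h2 : tr v h (rv q) ≤ n := by
      refine hq3.trans ?_
      rw [hn, div_le_div_iff₀ hl hlE]
      have h3 : β ^ k1 * E ≤ κ := hEb.trans hκ1
      calc β ^ k1 * (l * E) = l * (β ^ k1 * E) := by ring
        _ ≤ l * κ := mul_le_mul_of_nonneg_left h3 hl.le
        _ = κ * l := mul_comm _ _
    rw [abs_of_nonneg hq0] at h1
    have h4 : h (rv q) * nr v ≤ 2 * n * nr v := mul_le_mul_of_nonneg_right hq2' hnv.le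
    rw [hk2]
    nlinarith
  have hK1k : (k1 : ℕ) ≤ K1 := by omega
  have hβk : β ^ k1 ≤ β ^ K1 := pow_le_pow_right₀ hβ1 hK1k
  have hK1C : (4 : ℝ) * C ≤ K1 := by
    have : 4 * C ≤ K1 := by omega
    exact_mod_cast this
  have hK1k3 : k3 ≤ K1 := by
    have h1 : ⌈k3⌉₊ ≤ K1 := by omega
    exact (Nat.le_ceil k3).trans (by exact_mod_cast h1)
  have htr0 : 0 ≤ tr v h (rv q) / (C * L) :=
    div_nonneg (Pool.Agent.Helper79.GQ.nr_nonneg _) (by positivity)
  have hmax : l * (C * E * max (h (rv q)) 0 - tr v h (rv q) / (C * L)) ≤ 2 * C * κ := by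
    rw [max_eq_left hq0]
    have h1 : C * E * h (rv q) ≤ C * E * (2 * n) :=
      mul_le_mul_of_nonneg_left hq2' (by positivity)
    have h2 := mul_le_mul_of_nonneg_left (by linarith :
      C * E * h (rv q) - tr v h (rv q) / (C * L) ≤ C * E * (2 * n)) hl.le
    refine h2.trans (le_of_eq ?_)
    rw [← hlEn]
    ring
  refine ⟨q, hq1, hq2, ?_, ?_, ?_, ?_⟩
  · exact hq3.trans (div_le_div_of_nonneg_right hβk hl.le)
  · -- the tube
    set W : ℝ := β ^ K1 / l with hW
    set N : ℝ := k3 * n with hN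
    have hN1 : 1 ≤ N := by
      rw [hN]
      exact one_le_mul_of_one_le_of_one_le hk31 hn1
    have hZ := Z_le_Zc_tsum hEnv (le_refl ((bb m L : ℕ) : ℝ)) hl.le (tub v h W N)
      {z : V d | N < n1 z ∨ W < tr v h (rv z)} (fun e he => by
        by_contra hcon
        refine he fun z hz => ?_
        by_contra hz'
        refine hcon ⟨z, hz, ?_⟩
        rcases not_and_or.1 hz' with h1 | h1
        · exact Or.inr (not_le.1 h1)
        · exact Or.inl (not_le.1 h1)) 0 q
    set A1 : ℝ := 2 * Real.exp (-(l * n)) with hA1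
    set A2 : ℝ := Real.exp (k4 * L - β ^ K1 / (C * L)) with hA2
    have hfar := far_sum (fun z => Real.exp (l * g (rv q)) *
      (√(Z P (X (bb m L)) (2 * l) 0 z) * √(Z P (X (bb m L)) (2 * l) z q)))
      {z : V d | N < n1 z ∨ W < tr v h (rv z)} (A1 := A1) (A2 := A2) (θ := l * a / 2) (N := N)
      (by positivity) (by positivity) (by positivity) (by nlinarith) hN1 (by
        intro z hz
        by_cases hzN : N < n1 z
        · left
          exact f_far hEnv hReg hl hl2 hK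
            (fun x => (hPk.gle x).trans (hF.nrm.hi x)) hk3a q z hqn hzN hn0
        · right
          refine ⟨not_lt.1 hzN, ?_⟩
          have hW' : W < tr v h (rv z) := hz.resolve_left hzN
          refine (f_near hPk hEnv hH0 (abs_lin_le h) hE0.le hn0 hk20 (by linarith) q z hqn
            (not_lt.1 hzN) hW').trans (Real.exp_le_exp.2 ?_)
          rw [hlEn, hW]
          have h1 : k4 * κ ≤ k4 * L := mul_le_mul_of_nonneg_left hκL hk40
          have h2 : l * (β ^ K1 / l) / (C * L) = β ^ K1 / (C * L) := by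
            rw [mul_div_cancel₀ _ hl.ne']
          rw [h2]
          linarith)
    set S : ℝ := A1 * (8 / (l * a / 2)) ^ d + 3 * A2 * (8 * N) ^ d with hS
    have hA10 : 0 ≤ A1 := by positivity
    have hA20 : 0 ≤ A2 := by positivity
    have hS0 : 0 ≤ S := by positivity
    have hZ0 : 0 ≤ Zc P (X (bb m L)) (tub v h W N) (bb m L) l 0 q :=
      (Zc_pos hEnv (le_refl ((bb m L : ℕ) : ℝ)) _ 0 q).le
    have hreal : Z P (X (bb m L)) l 0 q * Real.exp (l * g (rv q)) ≤
        Zc P (X (bb m L)) (tub v h W N) (bb m L) l 0 q * Real.exp (l * g (rv q)) + S := by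
      have h1 := mul_le_mul' (le_refl (ENNReal.ofReal (Real.exp (l * g (rv q))))) hZ
      rw [mul_add, ← ENNReal.tsum_mul_left, ← ENNReal.ofReal_mul (Real.exp_pos _).le,
        ← ENNReal.ofReal_mul (Real.exp_pos _).le] at h1
      simp only [← ENNReal.ofReal_mul (Real.exp_pos (l * g (rv q))).le] at h1
      have h2 := h1.trans (add_le_add le_rfl hfar)
      rw [← ENNReal.ofReal_add (by positivity) hS0,
        ENNReal.ofReal_le_ofReal_iff (by positivity)] at h2
      rw [mul_comm (Z P (X (bb m L)) l 0 q), mul_comm (Zc P (X (bb m L)) (tub v h W N) _ l 0 q)]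
      exact h2
    have hnear := near_small k1 d C K1 L (β := β) (k3 := k3) (k4 := k4) (N := N) hk31 hk40 hC
      (by omega) hLf hβL hβc (by linarith) (by
        have h1 : 1 / (l * E) ≤ 4 ^ (L * (2 * d + 3)) := by
          have h2 : 1 / l ≤ 4 ^ L := by
            rw [div_le_iff₀ hl]
            calc (1 : ℝ) = 4 ^ L * (1 / 4) ^ L := by rw [← mul_pow]; norm_num
              _ ≤ 4 ^ L * l := mul_le_mul_of_nonneg_left hPk.llo (by positivity)
          have h3 : l ^ (2 * d + 3) ≤ l * E := by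
            rw [pow_succ', pow_succ']
            have h4 : l * l ^ (2 * d + 1) ≤ E := by
              rw [← pow_succ']
              exact hElo
            exact mul_le_mul_of_nonneg_left h4 hl.le
          calc 1 / (l * E) ≤ 1 / l ^ (2 * d + 3) := one_div_le_one_div_of_le (by positivity) h3
            _ = (1 / l) ^ (2 * d + 3) := by rw [div_pow, one_pow]
            _ ≤ (4 ^ L) ^ (2 * d + 3) := pow_le_pow_left₀ (by positivity) h2 _
            _ = 4 ^ (L * (2 * d + 3)) := by rw [pow_mul]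
        have h5 : n ≤ L * 4 ^ (L * (2 * d + 3)) := by
          rw [hn, div_eq_mul_one_div]
          exact mul_le_mul hκL h1 (by positivity) (by positivity)
        calc N = k3 * n := rfl
          _ ≤ k3 * (L * 4 ^ (L * (2 * d + 3))) :=
              mul_le_mul_of_nonneg_left h5 (by linarith)
          _ = k3 * L * 4 ^ (L * (2 * d + 3)) := by ring)
    have hfs := far_small k1 d L (β := β) (a := a) (l := l) (t := l * n) ha hl hPk.llo hβ1 hβL (by
      set k7 : ℝ := (k1 + 1 + d * (16 / a + 2)) + 3 with hk7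
      have hk70 : 0 < k7 := by positivity
      have h1 : β * E ≤ 1 / k7 := by
        calc β * E ≤ β * (β ^ C * (1 / 2) ^ L) := mul_le_mul_of_nonneg_left hEup hβ0.le
          _ = β ^ (C + 1) * (1 / 2) ^ L := by rw [pow_succ]; ring
          _ ≤ 1 / k7 := hs1
      have h2 : k7 * β * E ≤ 1 := by
        rw [le_div_iff₀ hk70] at h1
        linarith
      have h3 : l * n * E = κ := by
        rw [← hlEn]
        ring
      have h4 : k7 * β * E ≤ l * n * E := by linarith
      exact le_of_mul_le_mul_right h4 hE0)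
    have hβS : β ^ k1 * S ≤ 1 / 4 := by
      have h1 : β ^ k1 * S = β ^ k1 * (2 * Real.exp (-(l * n)) * (8 / (l * a / 2)) ^ d) +
          β ^ k1 * (3 * Real.exp (k4 * L - β ^ K1 / (C * L)) * (8 * N) ^ d) := by
        rw [hS, hA1, hA2]
        ring
      rw [h1]
      linarith
    have hmono : Zc P (X (bb m L)) (tub v h W N) (bb m L) l 0 q ≤
        Zc P (X (bb m L)) (tub v h W (K1 * κ / (l * E))) (bb m L) l 0 q := by
      refine Zc_mono hEnv le_rfl (tub_mono le_rfl ?_) hl.le 0 q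
      rw [hN, hn, ← mul_div_assoc]
      exact div_le_div_of_nonneg_right (mul_le_mul_of_nonneg_right hK1k3 (by linarith)) hlE.le
    have h1 : β ^ k1 * (Z P (X (bb m L)) l 0 q * Real.exp (l * g (rv q))) ≤
        β ^ k1 * (Zc P (X (bb m L)) (tub v h W N) (bb m L) l 0 q * Real.exp (l * g (rv q))) +
          1 / 4 := by
      have h2 := mul_le_mul_of_nonneg_left hreal (by positivity : 0 ≤ β ^ k1)
      rw [mul_add] at h2
      linarith
    have h3 : β ^ k1 * (Zc P (X (bb m L)) (tub v h W N) (bb m L) l 0 q *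
        Real.exp (l * g (rv q))) ≤
        β ^ K1 * (Zc P (X (bb m L)) (tub v h W (K1 * κ / (l * E))) (bb m L) l 0 q *
        Real.exp (l * g (rv q))) := by
      refine mul_le_mul hβk (mul_le_mul_of_nonneg_right hmono (Real.exp_pos _).le)
        (by positivity) (by positivity)
    linarith
  · refine (hPk.z1 q).trans (Real.exp_le_exp.2 (hmax.trans ?_))
    have h1 : 2 * C * κ ≤ 4 * C * κ := by nlinarith
    exact h1.trans (mul_le_mul_of_nonneg_right hK1C (by linarith))
  · refine (hPk.z2 q).trans (Real.exp_le_exp.2 ?_)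
    calc 2 * l * (C * E * max (h (rv q)) 0 - tr v h (rv q) / (C * L))
        = 2 * (l * (C * E * max (h (rv q)) 0 - tr v h (rv q) / (C * L))) := by ring
      _ ≤ 2 * (2 * C * κ) := by linarith
      _ = 4 * C * κ := by ring
      _ ≤ K1 * κ := mul_le_mul_of_nonneg_right hK1C (by linarith)

end Pool.Agent.Helper32.NP
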