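import Pool.Agent.Helper32.NP.ZY

/-!
# Leaving a set of edges, without a lower bound of the weights
-/

set_option autoImplicit false

namespace Pool.Agent.Helper32.NP

open MeasureTheory ProbabilityTheory Filter Pool.Agent.Helper79.GR Pool.Agent.Helper79.GQ
open Pool.Agent.Helper51.NP

private theorem cs {Ω : Type*} [MeasurableSpace Ω] (P : Measure Ω) [IsProbabilityMeasure P]
    (f g : Ω → ℝ) (hf : Measurable f) (hg : Measurable g) (hf0 : ∀ ω, 0 ≤ f ω)
    (hg0 : ∀ ω, 0 ≤ g ω) (hf1 : ∀ ω, f ω ≤ 1) (hg1 : ∀ ω, g ω ≤ 1) :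
    ∫ ω, f ω * g ω ∂P ≤ √(∫ ω, f ω ^ 2 ∂P) * √(∫ ω, g ω ^ 2 ∂P) := by
  have h2 : ∀ u : Ω → ℝ, Measurable u → (∀ ω, 0 ≤ u ω) → (∀ ω, u ω ≤ 1) →
      MemLp u (ENNReal.ofReal 2) P := by
    intro u hu hu0 hu1
    refine MemLp.of_bound hu.aestronglyMeasurable 1 (Eventually.of_forall fun ω => ?_)
    rw [Real.norm_eq_abs, abs_of_nonneg (hu0 ω)]
    exact hu1 ω
  have h3 := integral_mul_le_Lp_mul_Lq_of_nonneg (μ := P) Real.HolderConjugate.two_two
    (Eventually.of_forall hf0) (Eventually.of_forall hg0) (h2 f hf hf0 hf1) (h2 g hg hg0 hg1)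
  refine h3.trans (le_of_eq ?_)
  rw [Real.sqrt_eq_rpow, Real.sqrt_eq_rpow]
  simp only [Real.rpow_two]

variable {Ω : Type*} [MeasurableSpace Ω] {P : Measure Ω} {d : ℕ} {X : Edge d → Ω → ℝ}
  {ν : Measure ℝ} {a b B l : ℝ}

theorem cs_Z (hE : Env P X ν a b) (hl : 0 ≤ l) (x z y : V d) :
    ∫ ω, Real.exp (-(l * T (cf X ω) x z)) * Real.exp (-(l * T (cf X ω) z y)) ∂P ≤
      √(Z P X (2 * l) x z) * √(Z P X (2 * l) z y) := by
  have hP := hE.prob
  have hm : ∀ x y : V d, Measurable fun ω => Real.exp (-(l * T (cf X ω) x y)) := fun x y =>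
    Real.measurable_exp.comp ((measurable_T hE x y).const_mul l).neg
  have h0 : ∀ (x y : V d) (ω : Ω), 0 ≤ Real.exp (-(l * T (cf X ω) x y)) := fun x y ω =>
    (Real.exp_pos _).le
  have hone : ∀ (x y : V d) (ω : Ω), Real.exp (-(l * T (cf X ω) x y)) ≤ 1 := by
    intro x y ω
    rw [Real.exp_le_one_iff]
    have h1 := mul_nonneg hl (T_nonneg' (hE.cf_bd ω) x y)
    linarith
  have hsq : ∀ (x y : V d), ∫ ω, Real.exp (-(l * T (cf X ω) x y)) ^ 2 ∂P =
      Z P X (2 * l) x y := by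
    intro x y
    unfold Z
    refine integral_congr_ae (Eventually.of_forall fun ω => ?_)
    show Real.exp (-(l * T (cf X ω) x y)) ^ 2 = Real.exp (-(2 * l * T (cf X ω) x y))
    rw [← Real.exp_nat_mul]
    congr 1
    push_cast
    ring
  have h1 := cs P _ _ (hm x z) (hm z y) (h0 x z) (h0 z y) (hone x z) (hone z y)
  rw [hsq, hsq] at h1
  exact h1

/-- `A` contains an end of each edge off `S` -/
theorem Z_le_Zc_tsum (hE : Env P X ν a b) (hB : b ≤ B) (hl : 0 ≤ l) (S : Set (Edge d))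
    (A : Set (V d)) (hA : ∀ e : Edge d, e ∉ S → ∃ z ∈ e.1, z ∈ A) (x y : V d) :
    ENNReal.ofReal (Z P X l x y) ≤ ENNReal.ofReal (Zc P X S B l x y) +
      ∑' z : A, ENNReal.ofReal (√(Z P X (2 * l) x z) * √(Z P X (2 * l) z y)) := by
  have hP := hE.prob
  have hm : ∀ x y : V d, Measurable fun ω => Real.exp (-(l * T (cf X ω) x y)) := fun x y =>
    Real.measurable_exp.comp ((measurable_T hE x y).const_mul l).neg
  have hone : ∀ (x y : V d) (ω : Ω), Real.exp (-(l * T (cf X ω) x y)) ≤ 1 := by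
    intro x y ω
    rw [Real.exp_le_one_iff]
    have h1 := mul_nonneg hl (T_nonneg' (hE.cf_bd ω) x y)
    linarith
  have hI : ∀ x y : V d, Integrable (fun ω => Real.exp (-(l * T (cf X ω) x y))) P := by
    intro x y
    refine Integrable.of_bound (hm x y).aestronglyMeasurable 1
      (Eventually.of_forall fun ω => ?_)
    rw [Real.norm_eq_abs, abs_of_nonneg (Real.exp_pos _).le]
    exact hone x y ω
  have hmc : Measurable fun ω => Real.exp (-(l * T (cut S B (cf X ω)) x y)) :=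
    Real.measurable_exp.comp ((measurable_Tc hE S B x y).const_mul l).neg
  have hIc : Integrable (fun ω => Real.exp (-(l * T (cut S B (cf X ω)) x y))) P := by
    have h1 := integrable_exp_Tc hE hB S (-l) x y
    simpa only [neg_mul] using h1
  have hI2 : ∀ z : V d, Integrable (fun ω => Real.exp (-(l * T (cf X ω) x z)) *
      Real.exp (-(l * T (cf X ω) z y))) P := by
    intro z
    refine Integrable.of_bound ((hm x z).mul (hm z y)).aestronglyMeasurable 1
      (Eventually.of_forall fun ω => ?_)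
    rw [Real.norm_eq_abs, abs_mul, abs_of_nonneg (Real.exp_pos _).le,
      abs_of_nonneg (Real.exp_pos _).le]
    exact mul_le_one₀ (hone x z ω) (Real.exp_pos _).le (hone z y ω)
  have hpt : ∀ ω, ENNReal.ofReal (Real.exp (-(l * T (cf X ω) x y))) ≤
      ENNReal.ofReal (Real.exp (-(l * T (cut S B (cf X ω)) x y))) +
      ∑' z : A, ENNReal.ofReal (Real.exp (-(l * T (cf X ω) x z)) *
        Real.exp (-(l * T (cf X ω) z y))) := by
    intro ω
    rcases leave (hE.cf_bd ω) hB S x y with h1 | ⟨e, he, h1⟩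
    · rw [h1]
      exact le_self_add
    · obtain ⟨z, hz, hz'⟩ := hA e he
      have h2 := h1 z hz
      refine le_trans (le_of_eq ?_) ((ENNReal.le_tsum (⟨z, hz'⟩ : A)).trans le_add_self)
      congr 1
      rw [← Real.exp_add, ← h2]
      congr 1
      ring
  have e1 : ENNReal.ofReal (Z P X l x y) =
      ∫⁻ ω, ENNReal.ofReal (Real.exp (-(l * T (cf X ω) x y))) ∂P :=
    ofReal_integral_eq_lintegral_ofReal (hI x y) (Eventually.of_forall fun ω => (Real.exp_pos _).le)
  have e2 : ENNReal.ofReal (Zc P X S B l x y) =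
      ∫⁻ ω, ENNReal.ofReal (Real.exp (-(l * T (cut S B (cf X ω)) x y))) ∂P :=
    ofReal_integral_eq_lintegral_ofReal hIc (Eventually.of_forall fun ω => (Real.exp_pos _).le)
  have e3 : ∀ z : V d, ∫⁻ ω, ENNReal.ofReal (Real.exp (-(l * T (cf X ω) x z)) *
      Real.exp (-(l * T (cf X ω) z y))) ∂P ≤
      ENNReal.ofReal (√(Z P X (2 * l) x z) * √(Z P X (2 * l) z y)) := by
    intro z
    rw [← ofReal_integral_eq_lintegral_ofReal (hI2 z) (Eventually.of_forall fun ω => by positivity)]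
    exact ENNReal.ofReal_le_ofReal (cs_Z hE hl x z y)
  rw [e1, e2]
  refine (lintegral_mono hpt).trans ?_
  have hme : ∀ z : A, AEMeasurable (fun ω => ENNReal.ofReal
      (Real.exp (-(l * T (cf X ω) x z)) * Real.exp (-(l * T (cf X ω) z y)))) P := fun z =>
    ((hm x z).mul (hm z y)).ennreal_ofReal.aemeasurable
  rw [lintegral_add_left hmc.ennreal_ofReal, lintegral_tsum hme]
  exact add_le_add le_rfl (ENNReal.tsum_le_tsum fun z => e3 z)

end Pool.Agent.Helper32.NP
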