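import Pool.Agent.Helper32.NP.ZY
import Pool.Agent.Helper79.GR.DF

/-!
# Project NP: enlarge a finite set of edges by a shortest path from `0` to `q`
-/

set_option autoImplicit false

namespace Pool.Agent.Helper32.NP

open MeasureTheory ProbabilityTheory Filter Pool.Agent.Helper79.GR Pool.Agent.Helper79.GQ
open Pool.Agent.Helper51.NP

/-- `n1 q` edges -/
theorem exists_edges {d : ℕ} (q : V d) : ∃ F : Finset (Edge d), (F.card : ℝ) = n1 q := by
  classical
  have hb : Bd (1 : ℝ) 1 (fun _ : Edge d => (1 : ℝ)) := ⟨one_pos, fun _ => ⟨le_rfl, le_rfl⟩⟩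
  obtain ⟨w, hw, hc⟩ := exists_min hb 0 q
  have hg : Geo (fun _ : Edge d => (1 : ℝ)) 0 w := by rw [geo_iff hb, hw, hc]
  have h1 := le_T hb 0 q
  have h2 := T_le hb 0 q
  have h3 := le_cost hb 0 w
  have h4 := cost_le hb 0 w
  rw [sub_zero] at h1 h2
  refine ⟨(eds 0 w).toFinset, ?_⟩
  rw [List.toFinset_card_of_nodup (Geo.nodup hb hg), length_eds]
  linarith

/-- a finite set of edges can be enlarged by at most `n1 q` edges to one with at least `n1 q` edges -/
theorem enlarge {d : ℕ} (S : Set (Edge d)) (hS : S.Finite) (q : V d) :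
    ∃ S' : Set (Edge d), S'.Finite ∧ S ⊆ S' ∧ n1 q ≤ S'.ncard ∧
      (S'.ncard : ℝ) ≤ S.ncard + n1 q := by
  classical
  obtain ⟨F, hF⟩ := exists_edges q
  refine ⟨S ∪ ↑F, hS.union F.finite_toSet, Set.subset_union_left, ?_, ?_⟩
  · rw [← hF, ← Set.ncard_coe_finset F]
    exact_mod_cast Set.ncard_le_ncard Set.subset_union_right (hS.union F.finite_toSet)
  · rw [← hF, ← Set.ncard_coe_finset F]
    exact_mod_cast Set.ncard_union_le S ↑F

variable {Ω : Type*} [MeasurableSpace Ω] {P : Measure Ω} {d : ℕ} {X : Edge d → Ω → ℝ}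
  {ν : Measure ℝ} {a b B : ℝ}

theorem mc_anti (hE : Env P X ν a b) (hB : b ≤ B) {S S' : Set (Edge d)} (hS : S ⊆ S')
    (x y : V d) : mc P X S' B x y ≤ mc P X S B x y :=
  integral_mono (integrable_Tc hE hB S' x y) (integrable_Tc hE hB S x y) fun ω =>
    T_cut_anti (hE.cf_bd ω) hB hS x y

end Pool.Agent.Helper32.NP
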