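import Pool.Agent.Helper32.NP.ZZ

/-!
# Project NP, block F2: tools (monotone in the tube, counting)
-/

set_option autoImplicit false

namespace Pool.Agent.Helper32.NP

open MeasureTheory ProbabilityTheory Filter Pool.Agent.Helper79.GR Pool.Agent.Helper79.GQ
open Pool.Agent.Helper51.NP

theorem tub_mono {d : ℕ} {v : F d} {h : F d →L[ℝ] ℝ} {W W' N N' : ℝ} (hW : W ≤ W')
    (hN : N ≤ N') : tub v h W N ⊆ tub v h W' N' :=
  fun _ he x hx => ⟨(he x hx).1.trans hW, (he x hx).2.trans hN⟩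

theorem T_cut_anti {d : ℕ} {a b B : ℝ} {c : Edge d → ℝ} (h : Bd a b c) (hB : b ≤ B)
    {S S' : Set (Edge d)} (hS : S ⊆ S') (x y : V d) :
    T (cut S' B c) x y ≤ T (cut S B c) x y := by
  refine Pool.Agent.Helper33.PG.T_mono (cut_bd h hB S') (cut_bd h hB S) (fun e => ?_) x y
  unfold cut Set.piecewise
  by_cases he : e ∈ S
  · rw [if_pos he, if_pos (hS he)]
  · rw [if_neg he]
    split_ifs
    · exact (h.2 e).2.trans hB
    · exact le_rfl

variable {Ω : Type*} [MeasurableSpace Ω] {P : Measure Ω} {d : ℕ} {X : Edge d → Ω → ℝ}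
  {ν : Measure ℝ} {a b B : ℝ}

theorem Zc_mono (hE : Env P X ν a b) (hB : b ≤ B) {S S' : Set (Edge d)} (hS : S ⊆ S') {l : ℝ}
    (hl : 0 ≤ l) (x y : V d) : Zc P X S B l x y ≤ Zc P X S' B l x y := by
  have hI : ∀ S : Set (Edge d),
      Integrable (fun ω => Real.exp (-(l * T (cut S B (cf X ω)) x y))) P := by
    intro S
    have h1 := integrable_exp_Tc hE hB S (-l) x y
    simpa only [neg_mul] using h1
  refine integral_mono (hI S) (hI S') fun ω => ?_
  refine Real.exp_le_exp.2 (neg_le_neg ?_)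
  exact mul_le_mul_of_nonneg_left (T_cut_anti (hE.cf_bd ω) hB hS x y) hl

/-- a sum over lattice points in a ball -/
theorem finsum_ball_le (A : Set (V d)) (N M : ℝ) (hN : 0 ≤ N) (hA : ∀ z ∈ A, n1 z ≤ N)
    (f : V d → ℝ) (hM0 : 0 ≤ M) (hM : ∀ z ∈ A, f z ≤ M) :
    ∑ᶠ z ∈ A, f z ≤ (2 * N + 1) ^ d * M := by
  classical
  set B : Finset (V d) := Fintype.piFinset fun _ : Fin d => Finset.Icc (-⌊N⌋) ⌊N⌋ with hB
  have hsub : ∀ z ∈ A, z ∈ B := by
    intro z hz
    rw [hB, Fintype.mem_piFinset]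
    intro i
    have h1 : |(z i : ℝ)| ≤ N :=
      (Finset.single_le_sum (f := fun j => |(z j : ℝ)|) (fun j _ => abs_nonneg _)
        (Finset.mem_univ i)).trans (hA z hz)
    have h2 : |z i| ≤ ⌊N⌋ := by
      rw [Int.le_floor]
      push_cast
      exact h1
    rw [Finset.mem_Icc]
    exact abs_le.1 h2
  have hfin : A.Finite := B.finite_toSet.subset fun z hz => Finset.mem_coe.2 (hsub z hz)
  have hcard : (B.card : ℝ) ≤ (2 * N + 1) ^ d := by
    rw [hB, Fintype.card_piFinset]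
    simp only [Int.card_Icc, Finset.prod_const, Finset.card_univ, Fintype.card_fin]
    push_cast
    have h1 : (0 : ℤ) ≤ ⌊N⌋ := Int.floor_nonneg.2 hN
    have h2 : ((⌊N⌋ + 1 - -⌊N⌋).toNat : ℝ) = 2 * ⌊N⌋ + 1 := by
      have h3 : ((⌊N⌋ + 1 - -⌊N⌋).toNat : ℤ) = 2 * ⌊N⌋ + 1 := by omega
      exact_mod_cast h3
    rw [h2]
    refine pow_le_pow_left₀ ?_ ?_ d
    · have h4 : (0 : ℝ) ≤ (⌊N⌋ : ℝ) := by exact_mod_cast h1
      linarith
    · have h5 := Int.floor_le N
      linarith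
  rw [finsum_mem_eq_finite_toFinset_sum _ hfin]
  calc ∑ z ∈ hfin.toFinset, f z ≤ ∑ _z ∈ hfin.toFinset, M :=
        Finset.sum_le_sum fun z hz => hM z (hfin.mem_toFinset.1 hz)
    _ = (hfin.toFinset.card : ℝ) * M := by rw [Finset.sum_const, nsmul_eq_mul]
    _ ≤ (B.card : ℝ) * M := by
        refine mul_le_mul_of_nonneg_right ?_ hM0
        exact_mod_cast Finset.card_le_card fun z hz => hsub z (hfin.mem_toFinset.1 hz)
    _ ≤ (2 * N + 1) ^ d * M := mul_le_mul_of_nonneg_right hcard hM0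

end Pool.Agent.Helper32.NP
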