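import Pool.Agent.Helper51.NP.A

/-!
# Project NP, block F2: leaving the tube

A minimal path stays in a set `S` of edges, or it has an edge off `S`, and both ends of the edge are
on the path.
-/

set_option autoImplicit false

namespace Pool.Agent.Helper32.NP

open MeasureTheory ProbabilityTheory Filter Pool.Agent.Helper79.GR Pool.Agent.Helper79.GQ
open Pool.Agent.Helper51.NP

private theorem fin_n1 {d : ℕ} (R : ℝ) : {x : V d | n1 x ≤ R}.Finite := by
  refine (Set.finite_Icc (fun _ : Fin d => -⌈R⌉) (fun _ : Fin d => ⌈R⌉)).subset ?_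
  intro x hx
  have hx' : n1 x ≤ R := hx
  have key : ∀ i, |(x i : ℝ)| ≤ (⌈R⌉ : ℤ) := by
    intro i
    have h1 : |(x i : ℝ)| ≤ n1 x :=
      Finset.single_le_sum (f := fun j => |(x j : ℝ)|) (fun j _ => abs_nonneg _)
        (Finset.mem_univ i)
    exact h1.trans (hx'.trans (Int.le_ceil R))
  rw [Set.mem_Icc]
  refine ⟨fun i => ?_, fun i => ?_⟩
  · have h2 := (abs_le.1 (key i)).1
    exact_mod_cast h2
  · have h2 := (abs_le.1 (key i)).2
    exact_mod_cast h2

/-- the ends of an edge of a walk are on the walk -/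
theorem ends_take {d : ℕ} (w : List (St d)) : ∀ (x : V d) (e : Edge d), e ∈ eds x w →
    ∀ z ∈ e.1, ∃ n : ℕ, pos x (w.take n) = z := by
  induction w with
  | nil =>
    intro x e he
    exact absurd he (List.not_mem_nil)
  | cons s w ih =>
    intro x e he z hz
    have he' : e ∈ ed x s :: eds (x + sv s) w := he
    rw [List.mem_cons] at he'
    rcases he' with h1 | h1
    · rw [h1] at hz
      have hz' : z ∈ s(x, x + sv s) := hz
      rw [Sym2.mem_iff] at hz'
      rcases hz' with h2 | h2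
      · exact ⟨0, h2.symm⟩
      · refine ⟨1, ?_⟩
        rw [h2]
        simp [pos]
    · obtain ⟨n, hn⟩ := ih (x + sv s) e h1 z hz
      refine ⟨n + 1, ?_⟩
      rw [← hn]
      rfl

/-- a minimal path stays in `S` or has an edge off `S` -/
theorem leave {d : ℕ} {a b B : ℝ} {c : Edge d → ℝ} (h : Bd a b c) (hB : b ≤ B)
    (S : Set (Edge d)) (x y : V d) :
    T (cut S B c) x y = T c x y ∨
      ∃ e : Edge d, e ∉ S ∧ ∀ z ∈ e.1, T c x z + T c z y = T c x y := by
  obtain ⟨w, hw, hc⟩ := exists_min h x y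
  have hg : Geo c x w := by rw [geo_iff h, hw, hc]
  by_cases hS : ∀ e ∈ eds x w, e ∈ S
  · left
    refine le_antisymm ?_ (T_le_cut h hB S x y)
    have h1 : cost (cut S B c) x w = cost c x w := by
      rw [cost_eq_sum, cost_eq_sum]
      congr 1
      refine List.map_congr_left fun e he => ?_
      unfold cut Set.piecewise
      rw [if_pos (hS e he)]
    rw [← hc, ← h1]
    exact T_le_cost (cut_bd h hB S) hw
  · right
    push Not at hS
    obtain ⟨e, he, heS⟩ := hS
    refine ⟨e, heS, fun z hz => ?_⟩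
    obtain ⟨n, hn⟩ := ends_take w x e he z hz
    have h2 := Geo.split h hg n
    rw [hn, hw] at h2
    exact h2

private theorem cs {Ω : Type*} [MeasurableSpace Ω] (P : Measure Ω) [IsProbabilityMeasure P]
    (f g : Ω → ℝ) (hf : Measurable f) (hg : Measurable g) (hf0 : ∀ ω, 0 ≤ f ω)
    (hg0 : ∀ ω, 0 ≤ g ω) (hf1 : ∀ ω, f ω ≤ 1) (hg1 : ∀ ω, g ω ≤ 1) :
    ∫ ω, f ω * g ω ∂P ≤ √(∫ ω, f ω ^ 2 ∂P) * √(∫ ω, g ω ^ 2 ∂P) := by
  have h2 : ∀ u : Ω → ℝ, Measurable u → (∀ ω, 0 ≤ u ω) → (∀ ω, u ω ≤ 1) →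
      MemLp u (ENNReal.ofReal 2) P := by
    intro u hu hu0 hu1
    refine MemLp.of_bound hu.aestronglyMeasurable 1 (Eventually.of_forall fun ω => ?_)
    rw [Real.norm_eq_abs, abs_of_nonneg (hu0 ω)]
    exact hu1 ω
  have h3 := integral_mul_le_Lp_mul_Lq_of_nonneg (μ := P) Real.HolderConjugate.two_two
    (Eventually.of_forall hf0) (Eventually.of_forall hg0) (h2 f hf hf0 hf1) (h2 g hg hg0 hg1)
  refine h3.trans (le_of_eq ?_)
  rw [Real.sqrt_eq_rpow, Real.sqrt_eq_rpow]
  simp only [Real.rpow_two]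

variable {Ω : Type*} [MeasurableSpace Ω] {P : Measure Ω} {d : ℕ} {X : Edge d → Ω → ℝ}
  {ν : Measure ℝ} {a b B : ℝ} {v : F d} {h : F d →L[ℝ] ℝ}

/-- leaving the tube -/
theorem Z_sub_Zc_le (hE : Env P X ν a b) (hB : b ≤ B) (l W N : ℝ) (hl : 0 < l) (q : V d)
    (hN : b * n1 q ≤ a * N) :
    Z P X l 0 q ≤ Zc P X (tub v h W N) B l 0 q +
      ∑ᶠ z ∈ {z : V d | n1 z ≤ N ∧ W < tr v h (rv z)},
        √(Z P X (2 * l) 0 z) * √(Z P X (2 * l) z q) := by
  have hP := hE.prob
  have hfin : {z : V d | n1 z ≤ N ∧ W < tr v h (rv z)}.Finite :=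
    (fin_n1 N).subset fun z hz => hz.1
  rw [finsum_mem_eq_finite_toFinset_sum _ hfin]
  have hpt : ∀ ω, Real.exp (-(l * T (cf X ω) 0 q)) ≤
      Real.exp (-(l * T (cut (tub v h W N) B (cf X ω)) 0 q)) +
      ∑ z ∈ hfin.toFinset, Real.exp (-(l * T (cf X ω) 0 z)) *
        Real.exp (-(l * T (cf X ω) z q)) := by
    intro ω
    have hb := hE.cf_bd ω
    have hsum0 : 0 ≤ ∑ z ∈ hfin.toFinset, Real.exp (-(l * T (cf X ω) 0 z)) *
        Real.exp (-(l * T (cf X ω) z q)) := Finset.sum_nonneg fun _ _ => by positivity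
    rcases leave hb hB (tub v h W N) 0 q with h1 | ⟨e, he, h1⟩
    · rw [h1]
      linarith
    · have he' : ∃ z ∈ e.1, ¬ (tr v h (rv z) ≤ W ∧ n1 z ≤ N) := by
        by_contra hcon
        refine he fun z hz => ?_
        by_contra hcon'
        exact hcon ⟨z, hz, hcon'⟩
      obtain ⟨z, hz, hz'⟩ := he'
      have h2 := h1 z hz
      have h3 := le_T hb 0 z
      have h4 := T_le hb 0 q
      have h5 := T_nonneg' hb z q
      rw [sub_zero] at h3 h4
      have h6 : n1 z ≤ N := by
        have h60 : a * n1 z ≤ a * N := by linarith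
        exact le_of_mul_le_mul_left h60 hE.apos
      have h7 : W < tr v h (rv z) := by
        by_contra hcon
        exact hz' ⟨not_lt.1 hcon, h6⟩
      have h8 : z ∈ hfin.toFinset := hfin.mem_toFinset.2 ⟨h6, h7⟩
      have h9 := Finset.single_le_sum (f := fun z => Real.exp (-(l * T (cf X ω) 0 z)) *
        Real.exp (-(l * T (cf X ω) z q))) (fun _ _ => by positivity) h8
      have h10 : Real.exp (-(l * T (cf X ω) 0 q)) = Real.exp (-(l * T (cf X ω) 0 z)) *
          Real.exp (-(l * T (cf X ω) z q)) := by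
        rw [← Real.exp_add, ← h2]
        congr 1
        ring
      have h11 := Real.exp_pos (-(l * T (cut (tub v h W N) B (cf X ω)) 0 q))
      linarith
  have hm : ∀ x y : V d, Measurable fun ω => Real.exp (-(l * T (cf X ω) x y)) := fun x y =>
    Real.measurable_exp.comp ((measurable_T hE x y).const_mul l).neg
  have h0 : ∀ (x y : V d) (ω : Ω), 0 ≤ Real.exp (-(l * T (cf X ω) x y)) := fun x y ω =>
    (Real.exp_pos _).le
  have hone : ∀ (x y : V d) (ω : Ω), Real.exp (-(l * T (cf X ω) x y)) ≤ 1 := by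
    intro x y ω
    rw [Real.exp_le_one_iff]
    have h1 := mul_nonneg hl.le (T_nonneg' (hE.cf_bd ω) x y)
    linarith
  have hI : ∀ x y : V d, Integrable (fun ω => Real.exp (-(l * T (cf X ω) x y))) P := by
    intro x y
    refine Integrable.of_bound (hm x y).aestronglyMeasurable 1
      (Eventually.of_forall fun ω => ?_)
    rw [Real.norm_eq_abs, abs_of_nonneg (h0 x y ω)]
    exact hone x y ω
  have hIc : Integrable
      (fun ω => Real.exp (-(l * T (cut (tub v h W N) B (cf X ω)) 0 q))) P := by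
    have h1 := integrable_exp_Tc hE hB (tub v h W N) (-l) 0 q
    simpa only [neg_mul] using h1
  have hI2 : ∀ z : V d, Integrable (fun ω => Real.exp (-(l * T (cf X ω) 0 z)) *
      Real.exp (-(l * T (cf X ω) z q))) P := by
    intro z
    refine Integrable.of_bound ((hm 0 z).mul (hm z q)).aestronglyMeasurable 1
      (Eventually.of_forall fun ω => ?_)
    rw [Real.norm_eq_abs, abs_mul, abs_of_nonneg (h0 0 z ω), abs_of_nonneg (h0 z q ω)]
    exact mul_le_one₀ (hone 0 z ω) (h0 z q ω) (hone z q ω)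
  have hsq : ∀ (x y : V d), ∫ ω, Real.exp (-(l * T (cf X ω) x y)) ^ 2 ∂P =
      Z P X (2 * l) x y := by
    intro x y
    unfold Z
    refine integral_congr_ae (Eventually.of_forall fun ω => ?_)
    show Real.exp (-(l * T (cf X ω) x y)) ^ 2 = Real.exp (-(2 * l * T (cf X ω) x y))
    rw [← Real.exp_nat_mul]
    congr 1
    push_cast
    ring
  calc Z P X l 0 q ≤ ∫ ω, (Real.exp (-(l * T (cut (tub v h W N) B (cf X ω)) 0 q)) +
        ∑ z ∈ hfin.toFinset, Real.exp (-(l * T (cf X ω) 0 z)) *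
          Real.exp (-(l * T (cf X ω) z q))) ∂P :=
        integral_mono (hI 0 q) (hIc.add (integrable_finsetSum _ fun z _ => hI2 z)) hpt
    _ = Zc P X (tub v h W N) B l 0 q + ∑ z ∈ hfin.toFinset,
          ∫ ω, Real.exp (-(l * T (cf X ω) 0 z)) * Real.exp (-(l * T (cf X ω) z q)) ∂P := by
        rw [integral_add hIc (integrable_finsetSum _ fun z _ => hI2 z),
          integral_finsetSum _ fun z _ => hI2 z]
        rfl
    _ ≤ _ := by
        refine add_le_add le_rfl (Finset.sum_le_sum fun z _ => ?_)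
        have h1 := cs P _ _ (hm 0 z) (hm z q) (h0 0 z) (h0 z q) (hone 0 z) (hone z q)
        rw [hsq, hsq] at h1
        exact h1

end Pool.Agent.Helper32.NP
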